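import Mathlib

/-!
MP_7080a7_gt: derivative of the dihedral angle (package P1).
-/

set_option autoImplicit false

namespace Pool.Agent.H50ES

theorem acos (N D1 D2 : ℝ → ℝ) (N' D1' D2' x0 z G : ℝ) (hN : HasDerivAt N N' x0)
    (hD1 : HasDerivAt D1 D1' x0) (hD2 : HasDerivAt D2 D2' x0) (h1 : 0 < D1 x0) (h2 : 0 < D2 x0)
    (hz : 0 < z) (hG : 0 < G) (h : D1 x0 * D2 x0 - N x0 ^ 2 = z * G) :
    HasDerivAt (fun x => Real.arccos (N x / Real.sqrt (D1 x * D2 x)))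
      (-(N' - N x0 * (D1' / (2 * D1 x0) + D2' / (2 * D2 x0))) / (Real.sqrt z * Real.sqrt G)) x0 := by
  have hP : 0 < D1 x0 * D2 x0 := mul_pos h1 h2
  set S := Real.sqrt (D1 x0 * D2 x0) with hS
  have hSpos : 0 < S := Real.sqrt_pos.2 hP
  have hS2 : S ^ 2 = D1 x0 * D2 x0 := Real.sq_sqrt hP.le
  have hsqrt : HasDerivAt (fun x => Real.sqrt (D1 x * D2 x))
      ((D1' * D2 x0 + D1 x0 * D2') / (2 * S)) x0 := by
    have := (hD1.mul hD2).sqrt hP.ne'
    exact this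
  have hf : HasDerivAt (fun x => N x / Real.sqrt (D1 x * D2 x))
      ((N' * S - N x0 * ((D1' * D2 x0 + D1 x0 * D2') / (2 * S))) / S ^ 2) x0 := by
    have := hN.div hsqrt hSpos.ne'
    exact this
  set f0 := N x0 / S with hf0
  have h1f : 1 - f0 ^ 2 = z * G / S ^ 2 := by
    rw [hf0, div_pow, ← h, hS2]
    field_simp
  have hzG : 0 < z * G := mul_pos hz hG
  have hpos : 0 < 1 - f0 ^ 2 := by
    rw [h1f]; positivity
  have hne1 : f0 ≠ -1 := by
    intro h3; rw [h3] at hpos; norm_num at hpos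
  have hne2 : f0 ≠ 1 := by
    intro h3; rw [h3] at hpos; norm_num at hpos
  have hac := Real.hasDerivAt_arccos hne1 hne2
  have hcomp := hac.comp x0 hf
  have hsq : Real.sqrt (1 - f0 ^ 2) = Real.sqrt z * Real.sqrt G / S := by
    rw [h1f, Real.sqrt_div hzG.le, Real.sqrt_mul hz.le, Real.sqrt_sq hSpos.le]
  have hzs : 0 < Real.sqrt z := Real.sqrt_pos.2 hz
  have hGs : 0 < Real.sqrt G := Real.sqrt_pos.2 hG
  refine HasDerivAt.congr_deriv hcomp ?_
  rw [hsq]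
  have hS3 : D1 x0 * D2 x0 = S ^ 2 := hS2.symm
  have e1 : N x0 * (D1' / (2 * D1 x0) + D2' / (2 * D2 x0))
      = N x0 * (D1' * D2 x0 + D1 x0 * D2') / (2 * S ^ 2) := by
    rw [hS2]; field_simp
  rw [e1]
  field_simp

end Pool.Agent.H50ES
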