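import Mathlib
import Pool.Agent.H4ES.Defs
import Pool.Agent.H50ES.P1

/-!
MP_7080a7_gt: Schlaefli's formula for one tetrahedron (package P2).
-/

set_option autoImplicit false

namespace Pool.Agent.H50ES

open Real Pool.Agent.H4ES

/-- `144` times the squared volume. -/
noncomputable def gram (q : Fin 4 → Fin 4 → ℝ) : ℝ :=
  q 0 1 * q 2 3 * (q 0 2 + q 0 3 + q 1 2 + q 1 3 - q 0 1 - q 2 3)
  + q 0 2 * q 1 3 * (q 0 1 + q 0 3 + q 1 2 + q 2 3 - q 0 2 - q 1 3)
  + q 0 3 * q 1 2 * (q 0 1 + q 0 2 + q 1 3 + q 2 3 - q 0 3 - q 1 2)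
  - q 0 1 * q 0 2 * q 1 2 - q 0 1 * q 0 3 * q 1 3 - q 0 2 * q 0 3 * q 2 3 - q 1 2 * q 1 3 * q 2 3

/-- derivative of `ar`. -/
noncomputable def ard (q q' : Fin 4 → Fin 4 → ℝ) (i j k : Fin 4) : ℝ :=
  2 * ((q' i j * q i k + q i j * q' i k) + (q' i j * q j k + q i j * q' j k)
    + (q' i k * q j k + q i k * q' j k))
    - 2 * q i j * q' i j - 2 * q i k * q' i k - 2 * q j k * q' j k

/-- derivative of `nu`. -/
noncomputable def nud (q q' : Fin 4 → Fin 4 → ℝ) (i j k l : Fin 4) : ℝ :=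
  q' i j * (q i k + q i l + q j k + q j l - 2 * q k l - q i j)
    + q i j * (q' i k + q' i l + q' j k + q' j l - 2 * q' k l - q' i j)
    - ((q' i k - q' j k) * (q i l - q j l) + (q i k - q j k) * (q' i l - q' j l))

theorem ar_deriv (q : ℝ → Fin 4 → Fin 4 → ℝ) (q' : Fin 4 → Fin 4 → ℝ) (x0 : ℝ)
    (hq : ∀ a b, a ≠ b → HasDerivAt (fun x => q x a b) (q' a b) x0) (i j k : Fin 4)
    (hij : i ≠ j) (hik : i ≠ k) (hjk : j ≠ k) :
    HasDerivAt (fun x => ar (q x) i j k) (ard (q x0) q' i j k) x0 := by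
  have h1 := hq i j hij
  have h2 := hq i k hik
  have h3 := hq j k hjk
  have := (((((h1.mul h2).add (h1.mul h3)).add (h2.mul h3)).const_mul 2).sub (h1.pow 2)).sub
    (h2.pow 2) |>.sub (h3.pow 2)
  refine HasDerivAt.congr_deriv (this.congr_of_eventuallyEq ?_) ?_
  · refine Filter.Eventually.of_forall (fun x => ?_)
    simp [ar]
  · simp only [ard]
    push_cast
    ring

theorem nu_deriv (q : ℝ → Fin 4 → Fin 4 → ℝ) (q' : Fin 4 → Fin 4 → ℝ) (x0 : ℝ)
    (hq : ∀ a b, a ≠ b → HasDerivAt (fun x => q x a b) (q' a b) x0) (i j k l : Fin 4)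
    (hij : i ≠ j) (hik : i ≠ k) (hil : i ≠ l) (hjk : j ≠ k) (hjl : j ≠ l) (hkl : k ≠ l) :
    HasDerivAt (fun x => nu (q x) i j k l) (nud (q x0) q' i j k l) x0 := by
  have h1 := hq i j hij
  have h2 := hq i k hik
  have h3 := hq i l hil
  have h4 := hq j k hjk
  have h5 := hq j l hjl
  have h6 := hq k l hkl
  have := (h1.mul (((((h2.add h3).add h4).add h5).sub (h6.const_mul 2)).sub h1)).sub
    ((h2.sub h4).mul (h3.sub h5))
  refine HasDerivAt.congr_deriv (this.congr_of_eventuallyEq ?_) ?_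
  · refine Filter.Eventually.of_forall (fun x => ?_)
    simp [nu]
  · simp only [nud, Pi.add_apply, Pi.sub_apply]

/-- One term. -/
theorem term_deriv (q : ℝ → Fin 4 → Fin 4 → ℝ) (q' : Fin 4 → Fin 4 → ℝ) (x0 g : ℝ)
    (hq : ∀ a b, a ≠ b → HasDerivAt (fun x => q x a b) (q' a b) x0) (i j k l : Fin 4)
    (hij : i ≠ j) (hik : i ≠ k) (hil : i ≠ l) (hjk : j ≠ k) (hjl : j ≠ l) (hkl : k ≠ l)
    (h0 : 0 < q x0 i j) (h1 : 0 < ar (q x0) i j k) (h2 : 0 < ar (q x0) i j l) (hg : 0 < g)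
    (h : ar (q x0) i j k * ar (q x0) i j l - nu (q x0) i j k l ^ 2 = q x0 i j * (4 * g)) :
    HasDerivAt (fun x => √(q x i j) *
        arccos (nu (q x) i j k l / √(ar (q x) i j k * ar (q x) i j l)))
      (q' i j * arccos (nu (q x0) i j k l / √(ar (q x0) i j k * ar (q x0) i j l)) /
        (2 * √(q x0 i j)) +
        -(nud (q x0) q' i j k l - nu (q x0) i j k l *
          (ard (q x0) q' i j k / (2 * ar (q x0) i j k) +
            ard (q x0) q' i j l / (2 * ar (q x0) i j l))) / √(4 * g)) x0 := by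
  have hθ := acos (fun x => nu (q x) i j k l) (fun x => ar (q x) i j k) (fun x => ar (q x) i j l)
    _ _ _ x0 (q x0 i j) (4 * g) (nu_deriv q q' x0 hq i j k l hij hik hil hjk hjl hkl)
    (ar_deriv q q' x0 hq i j k hij hik hjk) (ar_deriv q q' x0 hq i j l hij hil hjl) h1 h2 h0
    (by linarith) h
  have hs : HasDerivAt (fun x => √(q x i j)) (q' i j / (2 * √(q x0 i j))) x0 :=
    (hq i j hij).sqrt h0.ne'
  have hm := hs.mul hθ
  refine HasDerivAt.congr_deriv hm ?_
  have hs0 : 0 < √(q x0 i j) := Real.sqrt_pos.2 h0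
  have hg0 : 0 < √(4 * g) := Real.sqrt_pos.2 (by linarith)
  field_simp

/-- **Schlaefli's formula** for one tetrahedron. -/
theorem schlaefli (q : ℝ → Fin 4 → Fin 4 → ℝ) (q' : Fin 4 → Fin 4 → ℝ) (x0 : ℝ)
    (hs : ∀ x a b, q x a b = q x b a)
    (hq : ∀ a b, a ≠ b → HasDerivAt (fun x => q x a b) (q' a b) x0)
    (hpos : ∀ a b, a ≠ b → 0 < q x0 a b)
    (hA : 0 < ar (q x0) 0 1 2) (hB : 0 < ar (q x0) 0 1 3) (hC : 0 < ar (q x0) 0 2 3)
    (hD : 0 < ar (q x0) 1 2 3) (hg : 0 < gram (q x0)) :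
    HasDerivAt (fun x => ∑ m, √(q x (ei m) (ej m)) * th (q x) m)
      (∑ m, q' (ei m) (ej m) * th (q x0) m / (2 * √(q x0 (ei m) (ej m)))) x0 := by
  have hs' : ∀ a b, a ≠ b → q' a b = q' b a := by
    intro a b hab
    have h1 := hq a b hab
    have h2 := hq b a hab.symm
    have h3 : (fun x => q x a b) = fun x => q x b a := funext (fun x => hs x a b)
    rw [h3] at h1
    exact h1.unique h2
  have s10 := hs x0 1 0
  have s20 := hs x0 2 0
  have s30 := hs x0 3 0
  have s21 := hs x0 2 1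
  have s31 := hs x0 3 1
  have s32 := hs x0 3 2
  have t10 := hs' 1 0 (by decide)
  have t20 := hs' 2 0 (by decide)
  have t30 := hs' 3 0 (by decide)
  have t21 := hs' 2 1 (by decide)
  have t31 := hs' 3 1 (by decide)
  have t32 := hs' 3 2 (by decide)
  -- symmetries of the areas
  have a021 : ar (q x0) 0 2 1 = ar (q x0) 0 1 2 := by simp only [ar, s21]; ring
  have a031 : ar (q x0) 0 3 1 = ar (q x0) 0 1 3 := by simp only [ar, s31]; ring
  have a032 : ar (q x0) 0 3 2 = ar (q x0) 0 2 3 := by simp only [ar, s32]; ring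
  have a120 : ar (q x0) 1 2 0 = ar (q x0) 0 1 2 := by simp only [ar, s10, s20]; ring
  have a130 : ar (q x0) 1 3 0 = ar (q x0) 0 1 3 := by simp only [ar, s10, s30]; ring
  have a132 : ar (q x0) 1 3 2 = ar (q x0) 1 2 3 := by simp only [ar, s32]; ring
  have a230 : ar (q x0) 2 3 0 = ar (q x0) 0 2 3 := by simp only [ar, s20, s30]; ring
  have a231 : ar (q x0) 2 3 1 = ar (q x0) 1 2 3 := by simp only [ar, s21, s31]; ring
  have b021 : ard (q x0) q' 0 2 1 = ard (q x0) q' 0 1 2 := by simp only [ard, s21, t21]; ring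
  have b031 : ard (q x0) q' 0 3 1 = ard (q x0) q' 0 1 3 := by simp only [ard, s31, t31]; ring
  have b032 : ard (q x0) q' 0 3 2 = ard (q x0) q' 0 2 3 := by simp only [ard, s32, t32]; ring
  have b120 : ard (q x0) q' 1 2 0 = ard (q x0) q' 0 1 2 := by
    simp only [ard, s10, s20, t10, t20]; ring
  have b130 : ard (q x0) q' 1 3 0 = ard (q x0) q' 0 1 3 := by
    simp only [ard, s10, s30, t10, t30]; ring
  have b132 : ard (q x0) q' 1 3 2 = ard (q x0) q' 1 2 3 := by simp only [ard, s32, t32]; ring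
  have b230 : ard (q x0) q' 2 3 0 = ard (q x0) q' 0 2 3 := by
    simp only [ard, s20, s30, t20, t30]; ring
  have b231 : ard (q x0) q' 2 3 1 = ard (q x0) q' 1 2 3 := by
    simp only [ard, s21, s31, t21, t31]; ring
  have H0 := term_deriv q q' x0 (gram (q x0)) hq 0 1 2 3 (by decide) (by decide) (by decide)
    (by decide) (by decide) (by decide) (hpos _ _ (by decide)) hA hB hg
    (by simp only [ar, nu, gram]; ring)
  have H1 := term_deriv q q' x0 (gram (q x0)) hq 0 2 1 3 (by decide) (by decide) (by decide)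
    (by decide) (by decide) (by decide) (hpos _ _ (by decide)) (by rw [a021]; exact hA) hC hg
    (by simp only [ar, nu, gram, s21]; ring)
  have H2 := term_deriv q q' x0 (gram (q x0)) hq 0 3 1 2 (by decide) (by decide) (by decide)
    (by decide) (by decide) (by decide) (hpos _ _ (by decide)) (by rw [a031]; exact hB)
    (by rw [a032]; exact hC) hg (by simp only [ar, nu, gram, s31, s32]; ring)
  have H3 := term_deriv q q' x0 (gram (q x0)) hq 1 2 0 3 (by decide) (by decide) (by decide)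
    (by decide) (by decide) (by decide) (hpos _ _ (by decide)) (by rw [a120]; exact hA) hD hg
    (by simp only [ar, nu, gram, s10, s20]; ring)
  have H4 := term_deriv q q' x0 (gram (q x0)) hq 1 3 0 2 (by decide) (by decide) (by decide)
    (by decide) (by decide) (by decide) (hpos _ _ (by decide)) (by rw [a130]; exact hB)
    (by rw [a132]; exact hD) hg (by simp only [ar, nu, gram, s10, s30, s32]; ring)
  have H5 := term_deriv q q' x0 (gram (q x0)) hq 2 3 0 1 (by decide) (by decide) (by decide)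
    (by decide) (by decide) (by decide) (hpos _ _ (by decide)) (by rw [a230]; exact hC)
    (by rw [a231]; exact hD) hg (by simp only [ar, nu, gram, s20, s30, s21, s31]; ring)
  have hsum := ((((H0.add H1).add H2).add H3).add H4).add H5
  -- the sums over faces
  have nA : nu (q x0) 0 1 2 3 + nu (q x0) 0 2 1 3 + nu (q x0) 1 2 0 3 = ar (q x0) 0 1 2 := by
    simp only [nu, ar, s10, s20, s21]; ring
  have nB : nu (q x0) 0 1 2 3 + nu (q x0) 0 3 1 2 + nu (q x0) 1 3 0 2 = ar (q x0) 0 1 3 := by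
    simp only [nu, ar, s10, s30, s31, s32]; ring
  have nC : nu (q x0) 0 2 1 3 + nu (q x0) 0 3 1 2 + nu (q x0) 2 3 0 1 = ar (q x0) 0 2 3 := by
    simp only [nu, ar, s20, s30, s21, s31, s32]; ring
  have nD : nu (q x0) 1 2 0 3 + nu (q x0) 1 3 0 2 + nu (q x0) 2 3 0 1 = ar (q x0) 1 2 3 := by
    simp only [nu, ar, s10, s20, s30, s21, s31, s32]; ring
  have nud0 : nud (q x0) q' 0 1 2 3 + nud (q x0) q' 0 2 1 3 + nud (q x0) q' 0 3 1 2
      + nud (q x0) q' 1 2 0 3 + nud (q x0) q' 1 3 0 2 + nud (q x0) q' 2 3 0 1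
      = (ard (q x0) q' 0 1 2 + ard (q x0) q' 0 1 3 + ard (q x0) q' 0 2 3
        + ard (q x0) q' 1 2 3) / 2 := by
    simp only [nud, ard, s10, s20, s30, s21, s31, s32, t10, t20, t30, t21, t31, t32]; ring
  have fA : ard (q x0) q' 0 1 2 / (2 * ar (q x0) 0 1 2) *
      (nu (q x0) 0 1 2 3 + nu (q x0) 0 2 1 3 + nu (q x0) 1 2 0 3) = ard (q x0) q' 0 1 2 / 2 := by
    rw [nA]; field_simp
  have fB : ard (q x0) q' 0 1 3 / (2 * ar (q x0) 0 1 3) *
      (nu (q x0) 0 1 2 3 + nu (q x0) 0 3 1 2 + nu (q x0) 1 3 0 2) = ard (q x0) q' 0 1 3 / 2 := by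
    rw [nB]; field_simp
  have fC : ard (q x0) q' 0 2 3 / (2 * ar (q x0) 0 2 3) *
      (nu (q x0) 0 2 1 3 + nu (q x0) 0 3 1 2 + nu (q x0) 2 3 0 1) = ard (q x0) q' 0 2 3 / 2 := by
    rw [nC]; field_simp
  have fD : ard (q x0) q' 1 2 3 / (2 * ar (q x0) 1 2 3) *
      (nu (q x0) 1 2 0 3 + nu (q x0) 1 3 0 2 + nu (q x0) 2 3 0 1) = ard (q x0) q' 1 2 3 / 2 := by
    rw [nD]; field_simp
  refine HasDerivAt.congr_deriv (hsum.congr_of_eventuallyEq
    (Filter.Eventually.of_forall (fun x => ?_))) ?_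
  · show ∑ m, √(q x (ei m) (ej m)) * th (q x) m = _
    rw [Fin.sum_univ_six]
    rfl
  · have R : ∑ m, q' (ei m) (ej m) * th (q x0) m / (2 * √(q x0 (ei m) (ej m))) =
        q' 0 1 * arccos (nu (q x0) 0 1 2 3 / √(ar (q x0) 0 1 2 * ar (q x0) 0 1 3)) /
          (2 * √(q x0 0 1)) +
        q' 0 2 * arccos (nu (q x0) 0 2 1 3 / √(ar (q x0) 0 2 1 * ar (q x0) 0 2 3)) /
          (2 * √(q x0 0 2)) +
        q' 0 3 * arccos (nu (q x0) 0 3 1 2 / √(ar (q x0) 0 3 1 * ar (q x0) 0 3 2)) /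
          (2 * √(q x0 0 3)) +
        q' 1 2 * arccos (nu (q x0) 1 2 0 3 / √(ar (q x0) 1 2 0 * ar (q x0) 1 2 3)) /
          (2 * √(q x0 1 2)) +
        q' 1 3 * arccos (nu (q x0) 1 3 0 2 / √(ar (q x0) 1 3 0 * ar (q x0) 1 3 2)) /
          (2 * √(q x0 1 3)) +
        q' 2 3 * arccos (nu (q x0) 2 3 0 1 / √(ar (q x0) 2 3 0 * ar (q x0) 2 3 1)) /
          (2 * √(q x0 2 3)) := by
      rw [Fin.sum_univ_six]
      rfl
    rw [R, a021, a031, a032, a120, a130, a132, a230, a231, b021, b031, b032, b120, b130, b132,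
      b230, b231]
    linear_combination (-(1 / √(4 * gram (q x0)))) * (nud0 - fA - fB - fC - fD)

end Pool.Agent.H50ES
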